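import Mathlib
import Pool.Agent.V11293.ACH.Core
import Pool.Agent.H812R3.CantorChar

/-!
The achievement set of the perturbed dyadic sequence is a Cantor set.
-/

set_option autoImplicit false

open Set Filter Topology

namespace Pool.Agent.Results.MP_1e50ba_an.CantorSet

open Pool.Agent.V11293.ACH

/-- The sequence of the problem: `x n = 1 / 2 ^ n` for odd `n ≥ 1` and `x n = 1 / (2 ^ n + 1)` for
even `n ≥ 1`. -/
noncomputable def x (n : ℕ+) : ℝ :=
  if Odd (n : ℕ) then 1 / 2 ^ (n : ℕ) else 1 / (2 ^ (n : ℕ) + 1)

/-- The achievement set of a real sequence indexed by the positive integers: the set of all sums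
`∑_{n ∈ A} x n` with `A` a set of positive integers. -/
def achievementSet (x : ℕ+ → ℝ) : Set ℝ := {s | ∃ A : Set ℕ+, s = ∑' n : A, x n}

lemma x_pos (n : ℕ+) : 0 < x n := by
  unfold x
  split_ifs <;> positivity

lemma x_le (n : ℕ+) : x n ≤ (1 / 2 : ℝ) ^ (n : ℕ) := by
  unfold x
  rw [one_div_pow]
  split_ifs
  · exact le_rfl
  · exact one_div_le_one_div_of_le (by positivity) (by linarith)

/-- the sequence indexed from zero -/
noncomputable def y (i : ℕ) : ℝ := x i.succPNat

lemma y_pos (i : ℕ) : 0 < y i := x_pos _

lemma y_le (i : ℕ) : y i ≤ (1 / 2 : ℝ) ^ i := by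
  refine (x_le _).trans ?_
  exact pow_le_pow_of_le_one (by norm_num) (by norm_num) (by simp)

lemma y_summable : Summable y :=
  Summable.of_nonneg_of_le (fun i => (y_pos i).le) y_le
    (summable_geometric_of_lt_one (by norm_num) (by norm_num))

lemma x_summable : Summable x := by
  have := (Equiv.pnatEquivNat.symm.summable_iff (f := x)).1
  apply this
  exact y_summable

lemma y_even (k : ℕ) : y (2 * k) = 2 * sc (k + 1) := by
  unfold y x
  rw [Nat.succPNat_coe, if_pos (by rw [Nat.succ_eq_add_one]; exact ⟨k, rfl⟩), sc_eq,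
    Nat.succ_eq_add_one, pow_succ, pow_succ, pow_mul]
  norm_num
  field_simp
  norm_num

lemma y_odd (k : ℕ) : y (2 * k + 1) = sc (k + 1) - dl (k + 1) := by
  unfold y x
  rw [Nat.succPNat_coe, if_neg (by rw [Nat.succ_eq_add_one, Nat.not_odd_iff_even]; exact ⟨k + 1, by ring⟩),
    dl_eq, Nat.succ_eq_add_one, show 2 * k + 1 + 1 = 2 * (k + 1) by ring, pow_mul]
  norm_num

/-- the subsum with selector `ε` -/
noncomputable def F (ε : ℕ → Bool) : ℝ := ∑' i, if ε i = true then y i else 0

lemma sel_summable (ε : ℕ → Bool) : Summable (fun i => if ε i = true then y i else 0) := by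
  refine Summable.of_nonneg_of_le (fun i => ?_) (fun i => ?_) y_summable
  · split_ifs
    · exact (y_pos i).le
    · exact le_rfl
  · split_ifs
    · exact le_rfl
    · exact (y_pos i).le

lemma F_cont : Continuous F := by
  refine continuous_tsum (u := y) ?_ y_summable ?_
  · intro i
    have : (fun ε : ℕ → Bool => (if ε i = true then y i else 0))
        = (fun b : Bool => (if b = true then y i else 0)) ∘ (fun ε : ℕ → Bool => ε i) := rfl
    rw [this]
    exact (continuous_of_discreteTopology).comp (continuous_apply i)
  · intro i ε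
    split_ifs
    · simp [abs_of_pos (y_pos i)]
    · simpa using (y_pos i).le

lemma ach_eq : achievementSet x = range F := by
  classical
  ext s
  constructor
  · rintro ⟨A, rfl⟩
    refine ⟨fun i => decide (i.succPNat ∈ A), ?_⟩
    rw [tsum_subtype A x, ← Equiv.pnatEquivNat.symm.tsum_eq (A.indicator x)]
    unfold F
    apply tsum_congr
    intro i
    simp only [decide_eq_true_eq, Equiv.pnatEquivNat_symm_apply, Set.indicator_apply]
    rfl
  · rintro ⟨ε, rfl⟩
    refine ⟨{n | ε n.natPred = true}, ?_⟩
    rw [tsum_subtype _ x, ← Equiv.pnatEquivNat.symm.tsum_eq (Set.indicator _ x)]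
    unfold F
    apply tsum_congr
    intro i
    simp only [Equiv.pnatEquivNat_symm_apply, Set.indicator_apply, Set.mem_ofPred_eq,
      Nat.natPred_succPNat]
    rfl

lemma F_mem (ε : ℕ → Bool) : F ε ∈ T 0 := by
  classical
  obtain ⟨g, hg⟩ : ∃ g : ℕ → ℝ, g = fun i => if ε i = true then y i else 0 := ⟨_, rfl⟩
  have hs : Summable g := by rw [hg]; exact sel_summable ε
  have hse : Summable (fun k => g (2 * k)) := hs.comp_injective (fun a b h => by simpa using h)
  have hso : Summable (fun k => g (2 * k + 1)) := hs.comp_injective (fun a b h => by simpa using h)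
  have h1 : HasSum g (∑' k, g (2 * k) + ∑' k, g (2 * k + 1)) := hse.hasSum.even_add_odd hso.hasSum
  have h2 : F ε = ∑' k, g (2 * k) + ∑' k, g (2 * k + 1) := by
    unfold F
    rw [← hg]
    exact h1.tsum_eq
  refine ⟨fun k => (if ε (2 * k) = true then 2 else 0) + (if ε (2 * k + 1) = true then 1 else 0),
    fun k => ?_, ?_⟩
  · dsimp only
    split_ifs <;> norm_num
  · rw [h2]
    have h3 : (fun k => fv (0 + 1 + k) ((if ε (2 * k) = true then 2 else 0) +
        (if ε (2 * k + 1) = true then 1 else 0))) = fun k => g (2 * k) + g (2 * k + 1) := by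
      ext k
      rw [hg]
      simp only
      rw [y_even, y_odd, show 0 + 1 + k = k + 1 by ring]
      unfold fv
      split_ifs <;> norm_num <;> ring
    rw [h3]
    exact hse.hasSum.add hso.hasSum

lemma F_good : Pool.Agent.H812R3.CantorChar.Good (range F) := by
  classical
  refine ⟨isCompact_range F_cont, range_nonempty F, ?_, ?_⟩
  · rintro _ ⟨ε, rfl⟩ δ hδ
    obtain ⟨i, hi⟩ := exists_pow_lt_of_lt_one hδ (show (1 / 2 : ℝ) < 1 by norm_num)
    have hyi : y i < δ := (y_le i).trans_lt hi
    have hyp := y_pos i
    have h1 : HasSum (fun j => if ε j = true then y j else 0) (F ε) := (sel_summable ε).hasSum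
    have h2 := h1.update i (if (!ε i) = true then y i else 0)
    have h3 : Function.update (fun j => if ε j = true then y j else 0) i
        (if (!ε i) = true then y i else 0)
        = fun j => if (Function.update ε i (!ε i)) j = true then y j else 0 := by
      ext j
      by_cases hj : j = i
      · subst hj; simp
      · simp [hj]
    rw [h3] at h2
    have h4 : F (Function.update ε i (!ε i)) =
        (if (!ε i) = true then y i else 0) - (if ε i = true then y i else 0) + F ε := h2.tsum_eq
    refine ⟨F (Function.update ε i (!ε i)), mem_range_self _, ?_, ?_⟩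
    · rw [h4]
      cases ε i <;> simp <;> linarith
    · rw [h4]
      cases ε i
      · simp [abs_of_pos hyp]; exact hyi
      · simp [abs_of_pos hyp]; exact hyi
  · intro u v huv
    obtain ⟨z, h1, h2, h3⟩ := T_zero_gap u v huv
    refine ⟨z, h1, h2, ?_⟩
    rintro ⟨ε, rfl⟩
    exact h3 (F_mem ε)

/-- **Q1.** The series `∑ x n` converges absolutely, and its achievement set is homeomorphic to the
ternary Cantor set: of the four topological types, `E(x n)` is a Cantor set. -/
theorem result : Summable (fun n => |x n|) ∧ Nonempty (achievementSet x ≃ₜ cantorSet) := by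
  refine ⟨x_summable.abs, ?_⟩
  rw [ach_eq]
  exact F_good.homeo

end Pool.Agent.Results.MP_1e50ba_an.CantorSet
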